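import Pool.Agent.Lib.MP_72e2e6_nt.Sm.AllB

/-!
# One hundred percent of all quadratic twists of an elliptic curve over `F(t)`, in the natural density

Let `F` be a finite field with `q ≡ 1` modulo four elements, `K = F(t)`, `a 0, a 1, a 2 ∈ F[t]` distinct
polynomials such that no `(a i - a j) (a i - a l)`, `{i, j, l} = {0, 1, 2}`, is a constant times a square:
the elliptic curve `E : y ^ 2 = (x - a 0) (x - a 1) (x - a 2)` has full rational two-torsion and no cyclic
subgroup of order four defined over `F̄(t)`. For `D ∈ F[t]`, `D ≠ 0` let `E_D = twd a D` be the quadratic
twist `y ^ 2 = (x - D a 0) (x - D a 1) (x - D a 2)`, and `nsp a D` the number of the places of `K` at which `E_D` has
split multiplicative reduction (it is even if and only if the root number of `E_D` is `1`: `-1` is a square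
in `F`, and at the places of additive reduction `E_D` is a quadratic twist of a curve with good or
multiplicative reduction).

THEOREM. For every `ε > 0` and all large `n`: (1) for at least `(1 - ε) #(sqd F n)` of the squarefree `D` of
degree `n` (with an arbitrary leading coefficient and without any condition at the places of bad reduction or
at infinity) the rank of `E_D(K)` is at most one, and if `nsp a D` is even then `E_D(K)` is finite and the
`2`-primary part of the Tate-Shafarevich group of `E_D` over `K` is finite; (2) `nsp a D` is even for at
least `(1 / 2 - ε) #(sqd F n)` of the squarefree `D` of degree `n`.

All groups are the literal ones: `(twd a D).toAffine.Point` is the Mordell-Weil group of Mathlib, and
`ShaTwoFin` (`W2/Fin/Defs.lean`) says that the classes of `2`-power order in the kernel of the localization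
maps (to all completions of `K` at nontrivial absolute values) on locally constant crossed
homomorphisms of the absolute Galois group of `K` with values in `E_D(K^s)` are finite in number.

The proof is self-contained and follows the strategy of Smith. (1) Anatomy of polynomials: most `D`
have about `log n` prime factors, few of small degree and many of large degree; the small prime factors are put
into the fixed part, and all estimates are uniform in the fixed part. (2) Level one: the mean value of the order
of the `2`-Selmer group is bounded, and its elements have many indices with every given pattern at the
ramified places (character sums over primes; explicit Weil bound). (3) From level `k` to level `k + 1`: on a
cube of dimension `k + 1` in the space of the tuples of primes the alternating sum of the Cassels-Tate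
pairings of level `k` is the value at a Frobenius element of a function on the Galois group of the maximal
`2`-extension of `K`, which is unramified outside the places of the cube. (4) An effective version of
Stepanov's method (with Riemann's inequality in towers of quadratic extensions, proved for valuations)
gives an upper bound for the number of the primes of degree `m` which split completely in a field, with an
explicit dependence on the degree and the ramification; the Kővári-Sós-Turán theorem with explicit
constants gives many cubes, and the proportion of the elements which lift from level `k` to level
`k + 1` is at most `15 / 16`, unless the Selmer group is minimal. (5) The local conditions at the places of bad
reduction: the local points of the twists by the four square classes, the finiteness of the local torsion,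
the image of the local points under the connecting map and its isotropy; a surjective endomorphism of `E[2^∞]`
whose kernel is the local torsion replaces the multiplication by two. (6) Parity: the Cassels-Tate pairing on
the divisible quotients is alternating, so the parity of the corank of the `2^∞`-Selmer group is the parity
of the order of the `2`-Selmer group, which is computed at the bad places by comparison with tame twists.
-/

namespace Pool.Agent.Results.MP_72e2e6_nt.AllTwists

/-- One hundred percent (in the natural density) of all the squarefree quadratic twists of an elliptic curve
over `F(t)` with full rational two-torsion and no geometric cyclic subgroup of order four have rank at most
one, and those of even parity (at least one half of all twists) have finitely many rational points and a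
finite `2`-primary part of the Tate-Shafarevich group. -/
theorem result : Pool.Agent.MP72T.ThmQ := Pool.Agent.MP72T.bThmQ

end Pool.Agent.Results.MP_72e2e6_nt.AllTwists
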