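import Pool.Agent.Lib.MP_72e2e6_nt.HEx

/-!
# The Selmer groups of `y ^ ℓ = f (x)` over `ℓ`-extensions and the class group of the branch curve

Let `ℓ` be a prime, let `R` be a Dedekind domain whose fraction field `K` contains the `ℓ`-th roots
of unity and let `f` be a monic polynomial over `R`, of degree prime to `ℓ`, such that the ring
`B = R[T] / (f)` of the branch curve is a Dedekind domain, that is, the branch curve is regular.

For a finite Galois extension `K'` of `K`, with ring of integers `R'`, the group `branchSelmer`
consists of the elements of `(K'[T] / (f))ˣ` whose norm is an `ℓ`-th power in `K'` and which are,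
at every prime of `R'`, values of a divisor of the curve at the function `x - T` (up to `ℓ`-th
powers). If `K` is a global field, the Selmer group of the isogeny `1 - ζ` of the Jacobian over
`K'` is contained in the quotient of this group by the `ℓ`-th powers.

If the Galois group is an `ℓ`-group and every prime of `R` which ramifies in `R'` has only one prime
of `B` above it, then the order of this quotient divides the `[K' : K]`-th power of
`#Cl(B)[ℓ] * [Bˣ : Rˣ (Bˣ) ^ ℓ]`. In particular, if this number is `1`, the Selmer group is trivial
over all these extensions. This is the case for `R = F[t]` and `f = f₀ (T) - t`, for every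
polynomial `f₀` over `F` of degree prime to `ℓ`.
-/

namespace Pool.Agent.Results.MP_72e2e6_nt.BranchClassGroup

open Polynomial IsDedekindDomain Module MP72e2e6

universe u

theorem result (ℓ : ℕ) (hℓ : ℓ.Prime) :
    (∀ (R K : Type u) [CommRing R] [IsDedekindDomain R] [Field K] [Algebra R K]
        [IsFractionRing R K] (f : R[X]) [IsDedekindDomain (AdjoinRoot f)] (ζ : K),
        f.Monic → f.natDegree.Coprime ℓ → IsPrimitiveRoot ζ ℓ →
          TowerBound ℓ R K f (branchBound f ℓ)) ∧
      ∀ (F K : Type u) [Field F] [Field K] [Algebra F[X] K] [IsFractionRing F[X] K] (f₀ : F[X])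
        (ζ : F), f₀.Monic → f₀.natDegree.Coprime ℓ → IsPrimitiveRoot ζ ℓ →
          GraphTrivial ℓ F K f₀ := by
  refine ⟨?_, ?_⟩
  · intro R K _ _ _ _ _ f _ ζ hf hn hζ R' K' _ _ _ _ _ _ _ _ hext hone
    obtain ⟨h1, h2, h3, h4, h5, h6⟩ := hext
    exact bound_tower (R' := R') (K' := K') f hf hℓ hn h6 hζ hone
  · intro F K _ _ _ _ f₀ ζ hf hn hζ R' K' _ _ _ _ _ _ _ _ hext hram
    obtain ⟨h1, h2, h3, h4, h5, h6⟩ := hext
    exact example_trivial (K := K) f₀ hf hℓ hn hζ h6 hram

end Pool.Agent.Results.MP_72e2e6_nt.BranchClassGroup
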