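import Pool.Agent.Lib.MP_72e2e6_nt.P4.All

/-!
# One hundred percent of the steps in towers of `p`-group extensions in characteristic `p`

Let `p` be a prime number, `K` a global function field of characteristic `p` and `E` an ordinary
elliptic curve over `K` (a Weierstrass curve with `Δ ≠ 0` and a point of order `p` over the algebraic
closure). Let `M/K` be a finite Galois extension of `p`-power degree and `D₀ ∈ M`. For `D ∈ K` let
`L = M(θ)`, `θ ^ p - θ = D₀ + D`, and let `A` be the kernel of the trace `Res_{L/M} E → E` from the Weil
restriction, an abelian variety of dimension `p - 1` over `M` (the part of `E` which is new over `L`). For
a finite set `S` of places of `K` and bounds `B v`, `v ∈ S`, let `Tw` be the finite set of the functions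
`D ∈ K` which are regular outside `S` and have the absolute value at most `B v` at `v ∈ S`.

THEOREM. There is a finite set `S₀` of places of `K` such that for every finite set `S ⊇ S₀` of places and
every `ε > 0` there is `B₀` such that for all `B v ≥ B₀`, for at least `(1 - ε) #Tw` elements `D` of `Tw`:
`[L : M] = p`, the group `A(M)` is finite, the `p`-primary part of the Tate-Shafarevich group of `A` over
`M` is finite, and `E(M)` has finite index in `E(L)`.

The parameter `D` is in the small field `K`. If `L/K` is Galois for `D = 0`, then it is Galois for all
`D ∈ K`, and the `L` are exactly the solutions of the same central embedding problem for `M/K` with kernel
of order `p`. So by induction over a central series, for every finite `p`-group `G`, one hundred percent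
(step by step) of the Galois extensions `L/K` with group `G` satisfy `rank E(L) = rank E(K)`. The case
`M = K`, `D₀ = 0` is the theorem for cyclic extensions of degree `p`.

All groups are the literal ones: the points are those of Mathlib, `InSha` is the kernel of the
localization maps (to all completions of `M` at nontrivial absolute values) on locally constant
crossed homomorphisms of the absolute Galois group of `M` with values in `A(M^s)`, and `ShaPFin` says
that the classes of `p`-power order in this kernel are finite in number.

The proof is self-contained. The Selmer groups of `V ^ k` and of `F ^ k` (`[p ^ k] = V ^ k F ^ k`) of `A` over `M`
are bounded in terms of the number of the pairs `(c, a)`, `c` a crossed homomorphism of the Galois group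
of `M` with values in `Λ = Z[ζ] / (p ^ (k + 1))`, twisted by the character of `L/M` and of the torsion of the
Frobenius twists of `E`, whose restriction at every place `w` of `M` above `S` is the coboundary of `a w`.
By Shapiro's lemma for pairs these are pairs over `K` with values in the induced module, a lattice over
`Z_p[ζ]` modulo `p ^ (k + 1)` on which the Galois group of `K` acts through a finite `p`-group (up to a
character). The average over `D ∈ Tw` of the number of the pairs whose values generate the module is
computed by iterated applications of the Cauchy-Schwarz inequality in `D`; the derivatives of the
defining equations in `D` are nondegenerate for every module (Artin-Schreier theory with coefficients,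
the additive and the multiplicative form of Hilbert's theorem 90 and independence of products of
Artin-Schreier generators). The pairs are sorted by the submodule which they generate; irreducible
lattices have few stable submodules, and extensions of lattices are treated by exact sequences. It
follows that for a proportion of the `D` which tends to one the number of the pairs is at most
`p ^ (δ k) #Λ` for every `δ > 0` and large `k`, and then the Selmer group of `p ^ k` has less than `p ^ k`
elements.
-/

namespace Pool.Agent.Results.MP_72e2e6_nt.PGroupExtensions

/-- For every prime `p`, every global function field `K` of characteristic `p`, every Galois extension
`M/K` of `p`-power degree, every `D₀ ∈ M` and every ordinary elliptic curve `E` over `K`: for one hundred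
percent of the `D ∈ K` the new part of `E` over the extension `L = M(θ)`, `θ ^ p - θ = D₀ + D`, has finitely
many rational points over `M` and a finite `p`-primary part of the Tate-Shafarevich group, and `E(M)` has
finite index in `E(L)`. -/
theorem result : Pool.Agent.MP72Z.T4 := Pool.Agent.MP72T4.aG_UniM

end Pool.Agent.Results.MP_72e2e6_nt.PGroupExtensions
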