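import Pool.Agent.Lib.MP_72e2e6_nt.GenAllL
import Pool.Agent.Lib.MP_72e2e6_nt.GenCon2

/-!
# The distribution of the Selmer groups of the twists of a superelliptic curve

Let `ℓ` be a prime, `F` a finite field which contains the `ℓ`-th roots of unity and an `ℓ`-th root
of `-1` (automatic for odd `ℓ`; for `ℓ = 2` it means `|F| ≡ 1` modulo `4`), `a 0, ..., a (m - 1)`
distinct polynomials over `F` and `b 0, ..., b (m - 1)` exponents; the `b i` and their sum are prime
to `ℓ`. For a polynomial `E ≠ 0` let `J_E` be the Jacobian of `y ^ ℓ = ∏ (x - E a i) ^ b i` over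
`F(t)`, a twist of the Jacobian of `y ^ ℓ = ∏ (x - a i) ^ b i`. For `ℓ = 2`, `m = 3` these are the
quadratic twists of the elliptic curves whose points of order two are rational.

Let `D` be monic, without divisors `P ^ ℓ`, and tame at the primes dividing the `a i - a j` (`TDg`,
`Tam`: no component of the special fibre is unramified). If `m ≤ ℓ` or `m ≤ 3`, or if there are
tame exponents at all places, then such `D` exist, and they can be chosen such that `D * M` is tame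
at infinity for all `M` with degree in a given class modulo `ℓ`. Let `TI` be the set of the degrees
`n` such that `D * M` is tame at infinity for `M` of degree `n`, and let `M` run through the
squarefree monic polynomials of degree `n`, prime to `D` and to the `a i - a j` (`Msf`; there are at
least `c q ^ n`). Let `Sel` be the explicit Selmer group of `J_{D M}` for the isogeny `1 - ζ`
(multiplication by `2` if `ℓ = 2`), `Tor` the group of the classes of the ramification points, and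
`ix` the (finite) order of `Sel` modulo `Tor`. The theorem says, for `n → ∞`, `n ∈ TI`:

* for every `k` the average of `ix ^ k` converges to an integer;
* for odd `ℓ`: `Sel = Tor`, so that the rank is zero and the Tate-Shafarevich group is finite, for a
  proportion of at least `(1 - 1 / (ℓ - 1)) ^ (m - 1) - ε` of the `M`;
* for `ℓ = 2`, `m = 3` (all elliptic curves with rational points of order two): the proportion of
  the `M` with `Sel = Tor` converges to `∏_{i ≥ 0} (1 - 2 ^ (- (2 i + 1)))`;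
* if the family is connected (`ConnG`: the graph on the branch points, with an edge `i, j` if
  `a i - a j` does not occur in any multiplicative relation of degree zero between the differences
  modulo `ℓ`-th powers, is connected), then `ix = ℓ ^ r` for a proportion which converges to
  `w * ∏_{i ≥ 0} (1 - ℓ ^ (- (2 i + 1))) / ∏_{i = 1}^r (ℓ ^ i - 1)`, `w = 1` for odd `ℓ` and
  `w = 2 ^ r` or `0` for `ℓ = 2` and `r` even or odd (the law of the coranks of large random
  symmetric, for `ℓ = 2` alternating, matrices over the field with `ℓ` elements), and the average of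
  `ix ^ k` converges to `∏_{i < k} (1 + ℓ ^ i)`, for `ℓ = 2` to `∏_{i < k} (1 + 2 ^ (i + 1))`. Every
  family with `m = 2` is connected, and a family with `m = 3`, `ℓ = 2` is connected if and only if no
  `(a i - a j) * (a i - a k)` is a square, i.e. if the elliptic curves have no rational cyclic
  isogenies of degree four.
-/

namespace Pool.Agent.Results.MP_72e2e6_nt.SelmerDistribution

open Polynomial IsDedekindDomain MP72e2e6 Filter Topology

universe u

section definitions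

variable {F : Type u} [Field F] (ℓ : ℕ) {m : ℕ}

/-- The degrees `n` such that `D * M` is tame at infinity for `M` of degree `n`. -/
def TI (b : Fin m → ℕ) (a : Fin m → F[X]) (D : F[X]) : Set ℕ :=
  {n | Tam ℓ b (wI a) (-((D.natDegree + n : ℕ) : ℤ))}

open Classical in
/-- The Selmer group of `y ^ ℓ = ∏ (x - E a i) ^ b i`. -/
noncomputable def Sel (a : Fin m → F[X]) (b : Fin m → ℕ) (E : F[X]) :
    Subgroup (Fin m → (RatFunc F)ˣ) :=
  placesSelmer F[X] (RatFunc.inftyValuation F) ℓ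
    (fun i => algebraMap F[X] (RatFunc F) (E * a i)) b

/-- The classes of the ramification points of `y ^ ℓ = ∏ (x - E a i) ^ b i`. -/
noncomputable def Tor (a : Fin m → F[X]) (b : Fin m → ℕ) (E : F[X]) :
    Subgroup (Fin m → (RatFunc F)ˣ) :=
  torsionGroup ℓ (fun i => algebraMap F[X] (RatFunc F) (E * a i)) b

/-- The order of the Selmer group modulo the classes of the ramification points. -/
noncomputable def ix (a : Fin m → F[X]) (b : Fin m → ℕ) (E : F[X]) : ℕ :=
  (Tor ℓ a b E).relIndex (Sel ℓ a b E)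

/-- The constant `∏_{i ≥ 0} (1 - ℓ ^ (- (2 i + 1)))`. -/
noncomputable def cst : ℝ := ∏' i : ℕ, (1 - ((ℓ : ℝ)⁻¹) ^ (2 * i + 1))

/-- The weight in the limit distribution. -/
noncomputable def wt (r : ℕ) : ℝ := if ℓ = 2 then (if Even r then 2 ^ r else 0) else 1

end definitions

section proofs

/-- from `ε` to limits -/
theorem lim_of {S : Set ℕ} {f g : ℕ → ℝ} {n₁ : ℕ} (hpos : ∀ n, n₁ ≤ n → 0 < g n) (x : ℝ)
    (hf : ∀ ε : ℝ, 0 < ε → ∃ n₀ : ℕ, ∀ n : ℕ, n₀ ≤ n → n ∈ S → |f n - x * g n| ≤ ε * g n) :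
    Tendsto (fun n => f n / g n) (atTop ⊓ 𝓟 S) (𝓝 x) := by
  rw [Metric.tendsto_nhds]
  intro ε hε
  obtain ⟨n₀, h0⟩ := hf (ε / 2) (half_pos hε)
  rw [eventually_inf_principal]
  filter_upwards [eventually_ge_atTop (max n₀ n₁)] with n hn hI
  have h6 := h0 n ((le_max_left _ _).trans hn) hI
  have h7 := hpos n ((le_max_right _ _).trans hn)
  rw [Real.dist_eq]
  have h8 : f n / g n - x = (f n - x * g n) / g n := by
    field_simp
  rw [h8, abs_div, abs_of_pos h7, div_lt_iff₀ h7]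
  refine lt_of_le_of_lt h6 ?_
  exact mul_lt_mul_of_pos_right (half_lt_self hε) h7

end proofs

theorem result (F : Type u) [Field F] [Finite F] (ℓ : ℕ) (hℓ : ℓ.Prime)
    (hq : ℓ ∣ Nat.card F - 1) (hz : ∃ z : F, z ^ ℓ = -1) (m : ℕ) (hm : 0 < m)
    (a : Fin m → F[X]) (ha : Function.Injective a) (b : Fin m → ℕ) (hb : ∀ i, ¬ ℓ ∣ b i)
    (hB : ¬ ℓ ∣ ∑ i, b i) :
    (m ≤ ℓ ∨ m ≤ 3 ∨ ((∀ P : F[X], P.Monic → Irreducible P → ∃ e : ℤ, Tam ℓ b (wP P a) e) ∧
        ∃ e : ℤ, Tam ℓ b (wI a) e) →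
      ∀ θ : ℕ, ∃ D : F[X], TDg ℓ b a D ∧ ∀ n : ℕ, n ≡ θ [MOD ℓ] → n ∈ TI ℓ b a D) ∧
    (m = 2 → ConnG ℓ a) ∧
    (m = 3 → ℓ = 2 → (ConnG ℓ a ↔ ∀ i j k : Fin m, i ≠ j → j ≠ k → i ≠ k →
      ∀ z : F[X], (a i - a j) * (a i - a k) ≠ z ^ 2)) ∧
    ∀ D : F[X], TDg ℓ b a D →
      (∃ c : ℝ, 0 < c ∧
        ∀ᶠ n in atTop, c * (Nat.card F : ℝ) ^ n ≤ ((Msf a D n).ncard : ℝ)) ∧
      (∀ n ∈ TI ℓ b a D, ∀ M ∈ Msf a D n, Tor ℓ a b (D * M) ≤ Sel ℓ a b (D * M) ∧
        ix ℓ a b (D * M) ≠ 0 ∧ (ℓ = 2 → ∃ r : ℕ, ix ℓ a b (D * M) = 4 ^ r)) ∧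
      (∀ k : ℕ, ∃ N : ℕ, Tendsto
        (fun n => (∑ᶠ M ∈ Msf a D n, (ix ℓ a b (D * M) : ℝ) ^ k) / ((Msf a D n).ncard : ℝ))
        (atTop ⊓ 𝓟 (TI ℓ b a D)) (𝓝 (N : ℝ)) ∧
        (2 ≤ m → ConnG ℓ a →
          N = ∏ i ∈ Finset.range k, (1 + ℓ ^ (if ℓ = 2 then i + 1 else i)))) ∧
      (ℓ ≠ 2 → ∀ ε : ℝ, 0 < ε → ∀ᶠ n in atTop ⊓ 𝓟 (TI ℓ b a D),
        (1 - 1 / ((ℓ : ℝ) - 1)) ^ (m - 1) - ε ≤
          ({M ∈ Msf a D n | Sel ℓ a b (D * M) = Tor ℓ a b (D * M)}.ncard : ℝ) /
            ((Msf a D n).ncard : ℝ)) ∧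
      (ℓ = 2 → m = 3 → Tendsto
        (fun n => ({M ∈ Msf a D n | Sel ℓ a b (D * M) = Tor ℓ a b (D * M)}.ncard : ℝ) /
          ((Msf a D n).ncard : ℝ)) (atTop ⊓ 𝓟 (TI ℓ b a D)) (𝓝 (cst ℓ))) ∧
      (2 ≤ m → ConnG ℓ a → ∀ r : ℕ, Tendsto
        (fun n => ({M ∈ Msf a D n | ix ℓ a b (D * M) = ℓ ^ r}.ncard : ℝ) /
          ((Msf a D n).ncard : ℝ)) (atTop ⊓ 𝓟 (TI ℓ b a D))
        (𝓝 (wt ℓ r * cst ℓ / ∏ i ∈ Finset.range r, ((ℓ : ℝ) ^ (i + 1) - 1)))) := by
  have : Fact ℓ.Prime := ⟨hℓ⟩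
  have hQ : (0 : ℝ) < (Nat.card F : ℝ) := by exact_mod_cast Nat.card_pos
  refine ⟨fun h θ => ?_, ?_, ?_, fun D hD => ?_⟩
  · have hT : (∀ P : F[X], P.Monic → Irreducible P → ∃ e : ℤ, Tam ℓ b (wP P a) e) ∧
        ∃ e : ℤ, Tam ℓ b (wI a) e := by
      rcases h with h | h | h
      · exact gen_tam ha hb hB (Or.inl h)
      · exact gen_tam ha hb hB (Or.inr h)
      · exact h
    obtain ⟨D, hD, hinf⟩ := gen_exists ha hT.1 hT.2 (θ : ZMod ℓ)
    exact ⟨D, hD, fun n hn => hinf n ((ZMod.natCast_eq_natCast_iff _ _ _).2 hn)⟩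
  · intro h
    subst h
    exact connG_two ℓ a
  · intro h3 h2
    subst h3
    subst h2
    exact connG_three hz ha
  have hTor : ∀ n, ∀ M ∈ Msf a D n, Tor ℓ a b (D * M) ≤ Sel ℓ a b (D * M) := fun n M hM =>
    torsionGroup_le_su hℓ (mul_ne_zero hD.monic.ne_zero hM.1.ne_zero) ha fun i =>
      Nat.Coprime.symm ((Nat.Prime.coprime_iff_not_dvd hℓ).2 (hb i))
  by_cases hℓ2 : ℓ = 2
  · subst hℓ2
    obtain ⟨⟨c, hc, n₁, h1⟩, h2, h3, h4⟩ := gen_two hq hz hm ha hb hB hD
    have hpos : ∀ n, n₁ ≤ n → (0 : ℝ) < ((Msf a D n).ncard : ℝ) := fun n hn =>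
      lt_of_lt_of_le (mul_pos hc (pow_pos hQ n)) (h1 n hn)
    refine ⟨⟨c, hc, ?_⟩, fun n hn M hM => ⟨hTor n M hM, ?_, fun _ => h2 n hn M hM⟩,
      fun k => ?_, fun h => absurd rfl h, fun _ h3m => ?_, fun hm2 hcn r => ?_⟩
    · filter_upwards [eventually_ge_atTop n₁] with n hn using h1 n hn
    · obtain ⟨r, hr⟩ := h2 n hn M hM
      change ist 2 a b (D * M) ≠ 0
      rw [hr]
      exact pow_ne_zero r (by norm_num)
    · obtain ⟨N, hN, h6⟩ := h3 k
      exact ⟨N, lim_of hpos _ h6, fun hm2 hcn => by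
        simpa only [if_true] using hN hm2 hcn⟩
    · subst h3m
      have h6 : ∀ n, {M ∈ Msf a D n | Sel 2 a b (D * M) = Tor 2 a b (D * M)} =
          {M ∈ Msf a D n | ist 2 a b (D * M) = 1} := by
        intro n
        ext M
        refine and_congr_right fun hM => ?_
        exact (pr_one_iff ha hb (mul_ne_zero hD.monic.ne_zero hM.1.ne_zero)).symm
      simp only [h6]
      exact lim_of hpos _ fun ε hε => gen_three hq hz ha hb hB hD ε hε
    · rcases Nat.even_or_odd' r with ⟨s, rfl | rfl⟩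
      · have h6 := lim_of hpos _ (h4 hm2 hcn s)
        rw [wt, if_pos rfl, if_pos (even_two_mul s), cst]
        refine h6.congr fun n => ?_
        rw [pow_mul]
        rfl
      · rw [wt, if_pos rfl, if_neg (Nat.not_even_iff_odd.2 ⟨s, rfl⟩), zero_mul, zero_div]
        refine lim_of hpos _ fun ε hε => ⟨0, fun n _ hI => ?_⟩
        have h6 : {M ∈ Msf a D n | ix 2 a b (D * M) = 2 ^ (2 * s + 1)} = ∅ := by
          rw [Set.eq_empty_iff_forall_notMem]
          rintro M ⟨hM, hM2⟩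
          obtain ⟨t, ht⟩ := h2 n hI M hM
          change ist 2 a b (D * M) = _ at hM2
          rw [ht, show (4 : ℕ) = 2 ^ 2 by norm_num, ← pow_mul] at hM2
          have := Nat.pow_right_injective le_rfl hM2
          omega
        rw [h6, Set.ncard_empty, Nat.cast_zero, zero_mul, sub_zero, abs_zero]
        positivity
  · obtain ⟨⟨c, hc, n₁, h1⟩, h2, h3, h4, h5⟩ := gen_odd hℓ2 hq hm ha hb hB hD
    have hpos : ∀ n, n₁ ≤ n → (0 : ℝ) < ((Msf a D n).ncard : ℝ) := fun n hn =>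
      lt_of_lt_of_le (mul_pos hc (pow_pos hQ n)) (h1 n hn)
    refine ⟨⟨c, hc, ?_⟩, fun n hn M hM => ⟨hTor n M hM, h2 n hn M hM, fun h => absurd h hℓ2⟩,
      fun k => ?_, fun _ ε hε => ?_, fun h => absurd h hℓ2, fun hm2 hcn r => ?_⟩
    · filter_upwards [eventually_ge_atTop n₁] with n hn using h1 n hn
    · obtain ⟨N, hN, h6⟩ := h3 k
      exact ⟨N, lim_of hpos _ h6, fun hm2 hcn => by
        simpa only [if_neg hℓ2] using hN hm2 hcn⟩
    · obtain ⟨n₀, h0⟩ := h4 ε hε
      rw [eventually_inf_principal]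
      filter_upwards [eventually_ge_atTop (max n₀ n₁)] with n hn hI
      rw [le_div_iff₀ (hpos n ((le_max_right _ _).trans hn))]
      exact h0 n ((le_max_left _ _).trans hn) hI
    · have h6 := lim_of hpos _ (h5 hm2 hcn r)
      rw [wt, if_neg hℓ2, one_mul, cst]
      exact h6

end Pool.Agent.Results.MP_72e2e6_nt.SelmerDistribution
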